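import Mathlib
import Pool.Agent.Helper48.CTCSCore

/-!
# MP_87a2dc_pr: the height of the critical beta-splitting tree

We construct the continuous-time critical beta-splitting trees `CTCS(n)`, `n ≥ 1`, on an explicit
product probability space and show that their heights `D*_n` satisfy `D*_n / log n → 2`
in probability.
-/

set_option autoImplicit false

open MeasureTheory ProbabilityTheory Filter Topology

namespace Pool.Agent.Results.MP_87a2dc_pr.HeightTwoLog

noncomputable section

/-! ### Definitions -/

/-- The harmonic sum `h_k = ∑_{i=1}^{k} 1/i`. -/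
def h (k : ℕ) : ℝ := ∑ i ∈ Finset.Icc 1 k, 1 / (i : ℝ)

/-- The splitting probabilities `q(m,i) = m / (2 h_{m-1}) * 1 / (i (m - i))`, `1 ≤ i ≤ m - 1`. -/
def q (m i : ℕ) : ℝ := (m : ℝ) / (2 * h (m - 1)) * (1 / ((i : ℝ) * ((m : ℝ) - i)))

/-- The law `q(m, ·)` on `{1, …, m - 1}`, as a measure on `ℕ`. -/
def splitLaw (m : ℕ) : Measure ℕ :=
  ∑ i ∈ Finset.Icc 1 (m - 1), ENNReal.ofReal (q m i) • Measure.dirac i

/-- The law of the pair (waiting time, size of the first of the two new blocks) for a block of
size `k + 2`: an exponential time of rate `h_{k+1}` and an independent size of law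
`q(k + 2, ·)`. -/
def mark (k : ℕ) : Measure (ℝ × ℕ) := (expMeasure (h (k + 1))).prod (splitLaw (k + 2))

/-- The source of randomness: a pair (waiting time, size) for each address `v` (a finite word in
two letters) of a block and for each possible size `k + 2` of the block. -/
abbrev Source : Type := List Bool × ℕ → ℝ × ℕ

/-- All pairs are independent, and the pair attached to `(v, k)` has law `mark k`. -/
def source : Measure Source := Measure.infinitePi (fun p : List Bool × ℕ => mark p.2)

/-- Rooted binary trees with edge lengths. `leaf` is a block of size one. `node x L R` is a block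
which waits for the time `x` and then splits in two blocks, from which `L` and `R` grow. -/
inductive BTree : Type
  | leaf : BTree
  | node (x : ℝ) (L R : BTree) : BTree

/-- The heights of the leaves of a tree: the times at which the blocks become singletons. -/
def BTree.leafHeights : BTree → List ℝ
  | .leaf => [0]
  | .node x L R => (L.leafHeights ++ R.leafHeights).map (fun y => x + y)

/-- The height of a tree: the maximum of the heights of its leaves. -/
def BTree.height (T : BTree) : ℝ := sSup {y | y ∈ T.leafHeights}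

/-- The tree that grows from the block of size `m` at the address `v`. A block of size `k + 2` at
the address `v` waits for the time `(ω (v, k)).1` and then splits into a block of size
`i = (ω (v, k)).2` at the address `false :: v` and a block of size `k + 2 - i` at the address
`true :: v` (the condition `1 ≤ i ≤ k + 1` holds almost surely). -/
def tree : ℕ → List Bool → Source → BTree
  | 0, _, _ => .leaf
  | 1, _, _ => .leaf
  | k + 2, v, ω =>
    if _hi : 1 ≤ (ω (v, k)).2 ∧ (ω (v, k)).2 ≤ k + 1 then
      .node (ω (v, k)).1 (tree (ω (v, k)).2 (false :: v) ω)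
        (tree (k + 2 - (ω (v, k)).2) (true :: v) ω)
    else .leaf
  termination_by m => m
  decreasing_by all_goals omega

/-- `CTCS(n)`: the random tree that grows from one block of size `n`. -/
def CTCS (n : ℕ) (ω : Source) : BTree := tree n [] ω

/-- The height `D*_n` of `CTCS(n)`. -/
def Dstar (n : ℕ) (ω : Source) : ℝ := (CTCS n ω).height

/-! ### Elementary facts on the definitions -/

lemma h_pos {k : ℕ} (hk : 1 ≤ k) : 0 < h k := by
  unfold h
  apply Finset.sum_pos
  · intro i hi
    simp only [Finset.mem_Icc] at hi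
    have : 0 < i := hi.1
    positivity
  · exact ⟨1, by simp [hk]⟩

lemma q_nonneg {m i : ℕ} (hi : i ∈ Finset.Icc 1 (m - 1)) : 0 ≤ q m i := by
  simp only [Finset.mem_Icc] at hi
  unfold q
  have h1 := h_pos (k := m - 1) (by omega)
  have h2 : (0 : ℝ) < i := by exact_mod_cast hi.1
  have h3 : (i : ℝ) < m := by exact_mod_cast (by omega : i < m)
  have h4 : (0 : ℝ) < (m : ℝ) - i := by linarith
  positivity

/-- `h_{m-1} q(m,i) = (1/i + 1/(m-i))/2`. -/
lemma h_mul_q {m i : ℕ} (hi : i ∈ Finset.Icc 1 (m - 1)) :
    h (m - 1) * q m i = (1 / (i : ℝ) + 1 / ((m - i : ℕ) : ℝ)) / 2 := by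
  simp only [Finset.mem_Icc] at hi
  unfold q
  have h1 := h_pos (k := m - 1) (by omega)
  have h2 : (0 : ℝ) < i := by exact_mod_cast hi.1
  have h3 : (i : ℝ) < m := by exact_mod_cast (by omega : i < m)
  have h4 : (0 : ℝ) < (m : ℝ) - i := by linarith
  rw [Nat.cast_sub (by omega)]
  field_simp
  ring

/-- Symmetrisation of sums against the splitting rates. -/
lemma sum_h_mul_q (m : ℕ) (f : ℕ → ℕ → ℝ) (hf : ∀ i j, f i j = f j i) :
    ∑ i ∈ Finset.Icc 1 (m - 1), h (m - 1) * q m i * f i (m - i) =
      ∑ j ∈ Finset.Icc 1 (m - 1), 1 / (j : ℝ) * f j (m - j) := by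
  have h1 : ∑ i ∈ Finset.Icc 1 (m - 1), h (m - 1) * q m i * f i (m - i) =
      (∑ j ∈ Finset.Icc 1 (m - 1), 1 / (j : ℝ) * f j (m - j) +
        ∑ j ∈ Finset.Icc 1 (m - 1), 1 / ((m - j : ℕ) : ℝ) * f (m - j) (m - (m - j))) / 2 := by
    rw [← Finset.sum_add_distrib, Finset.sum_div]
    apply Finset.sum_congr rfl
    intro i hi
    rw [h_mul_q hi]
    simp only [Finset.mem_Icc] at hi
    have : m - (m - i) = i := by omega
    rw [this, hf (m - i) i]
    ring
  rw [h1, Helper48.CTCS.sum_reflect m (fun j => 1 / (j : ℝ) * f j (m - j))]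
  ring

lemma sum_q {m : ℕ} (hm : 2 ≤ m) : ∑ i ∈ Finset.Icc 1 (m - 1), q m i = 1 := by
  have h1 := sum_h_mul_q m (fun _ _ => 1) (fun _ _ => rfl)
  simp only [mul_one] at h1
  rw [← Finset.mul_sum] at h1
  have h2 := h_pos (k := m - 1) (by omega)
  have h3 : h (m - 1) * ∑ i ∈ Finset.Icc 1 (m - 1), q m i = h (m - 1) * 1 := by
    rw [h1, mul_one]
    rfl
  exact mul_left_cancel₀ h2.ne' h3

lemma splitLaw_prob {m : ℕ} (hm : 2 ≤ m) : IsProbabilityMeasure (splitLaw m) := by
  constructor
  unfold splitLaw
  rw [Measure.finsetSum_apply]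
  simp only [Measure.smul_apply, measure_univ, smul_eq_mul, mul_one]
  rw [← ENNReal.ofReal_sum_of_nonneg (fun i hi => q_nonneg hi), sum_q hm, ENNReal.ofReal_one]

instance (k : ℕ) : IsProbabilityMeasure (splitLaw (k + 2)) := splitLaw_prob (by omega)

instance (k : ℕ) : IsProbabilityMeasure (expMeasure (h (k + 1))) :=
  isProbabilityMeasure_expMeasure (h_pos (by omega))

instance (k : ℕ) : IsProbabilityMeasure (mark k) := by
  unfold mark
  infer_instance

instance : IsProbabilityMeasure source := by
  unfold source
  infer_instance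

lemma leafHeights_ne_nil (T : BTree) : T.leafHeights ≠ [] := by
  induction T with
  | leaf => simp [BTree.leafHeights]
  | node x L R ihL ihR => simp [BTree.leafHeights, ihL]

lemma height_leaf : BTree.height .leaf = 0 := by
  simp [BTree.height, BTree.leafHeights]

lemma height_node (x : ℝ) (L R : BTree) :
    (BTree.node x L R).height = x + max L.height R.height := by
  have hfin : ∀ T : BTree, {y | y ∈ T.leafHeights}.Finite := fun T => List.finite_toSet _
  have hne : ∀ T : BTree, {y | y ∈ T.leafHeights}.Nonempty := fun T =>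
    List.exists_mem_of_ne_nil _ (leafHeights_ne_nil T)
  have h1 : {y | y ∈ (BTree.node x L R).leafHeights} =
      (OrderIso.addLeft x) '' ({y | y ∈ L.leafHeights} ∪ {y | y ∈ R.leafHeights}) := by
    ext y
    change y ∈ (BTree.node x L R).leafHeights ↔
      ∃ a, (a ∈ L.leafHeights ∨ a ∈ R.leafHeights) ∧ x + a = y
    simp only [BTree.leafHeights, List.mem_map, List.mem_append]
  unfold BTree.height
  rw [h1, ← OrderIso.map_csSup' _ (hne L).inl ((hfin L).union (hfin R)).bddAbove,
    csSup_union (hfin L).bddAbove (hne L) (hfin R).bddAbove (hne R)]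
  rfl

/-! ### The shifted sources -/

/-- The source seen from the child `b` of the root. -/
def shift (b : Bool) (ω : Source) : Source := fun p => ω (p.1 ++ [b], p.2)

lemma tree_shift (b : Bool) (ω : Source) : ∀ (m : ℕ) (v : List Bool),
    tree m (v ++ [b]) ω = tree m v (shift b ω) := by
  intro m
  induction m using Nat.strong_induction_on with
  | _ m ih =>
    intro v
    match m with
    | 0 => simp [tree]
    | 1 => simp [tree]
    | k + 2 =>
      rw [tree, tree]
      have e : shift b ω (v, k) = ω (v ++ [b], k) := rfl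
      rw [e]
      split_ifs with hi
      · congr 1
        · exact ih _ (by omega) (false :: v)
        · exact ih _ (by omega) (true :: v)
      · rfl

lemma Dstar_zero (ω : Source) : Dstar 0 ω = 0 := by
  simp [Dstar, CTCS, tree, height_leaf]

lemma Dstar_one (ω : Source) : Dstar 1 ω = 0 := by
  simp [Dstar, CTCS, tree, height_leaf]

lemma Dstar_step (k : ℕ) (ω : Source) :
    Dstar (k + 2) ω = if 1 ≤ (ω ([], k)).2 ∧ (ω ([], k)).2 ≤ k + 1 then
      (ω ([], k)).1 + max (Dstar (ω ([], k)).2 (shift false ω))
        (Dstar (k + 2 - (ω ([], k)).2) (shift true ω)) else 0 := by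
  unfold Dstar CTCS
  rw [tree]
  split_ifs with hi
  · rw [height_node]
    congr 2
    · exact congrArg BTree.height (tree_shift false ω _ [])
    · exact congrArg BTree.height (tree_shift true ω _ [])
  · exact height_leaf

@[fun_prop]
lemma measurable_shift (b : Bool) : Measurable (shift b) := by
  unfold shift
  fun_prop

lemma Dstar_step' (k : ℕ) (ω : Source) :
    Dstar (k + 2) ω = ∑ i ∈ Finset.Icc 1 (k + 1), if (ω ([], k)).2 = i then
      (ω ([], k)).1 + max (Dstar i (shift false ω)) (Dstar (k + 2 - i) (shift true ω)) else 0 := by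
  rw [Dstar_step, Finset.sum_ite_eq]
  simp only [Finset.mem_Icc]

@[fun_prop]
lemma measurable_Dstar (n : ℕ) : Measurable (Dstar n) := by
  induction n using Nat.strong_induction_on with
  | _ n ih =>
    match n with
    | 0 =>
      have : Dstar 0 = fun _ => 0 := funext Dstar_zero
      rw [this]
      exact measurable_const
    | 1 =>
      have : Dstar 1 = fun _ => 0 := funext Dstar_one
      rw [this]
      exact measurable_const
    | k + 2 =>
      have : Dstar (k + 2) = fun ω => ∑ i ∈ Finset.Icc 1 (k + 1), if (ω ([], k)).2 = i then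
          (ω ([], k)).1 + max (Dstar i (shift false ω)) (Dstar (k + 2 - i) (shift true ω))
          else 0 := funext (Dstar_step' k)
      rw [this]
      apply Finset.measurable_sum
      intro i hi
      simp only [Finset.mem_Icc] at hi
      have h1 : Measurable (Dstar i) := ih i (by omega)
      have h2 : Measurable (Dstar (k + 2 - i)) := ih (k + 2 - i) (by omega)
      apply Measurable.ite
      · have : Measurable (fun ω : Source => (ω ([], k)).2) := by fun_prop
        exact this (measurableSet_singleton i)
      · fun_prop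
      · exact measurable_const

/-! ### The law of the source -/

lemma indep_coords : iIndepFun (fun (p : List Bool × ℕ) (ω : Source) => ω p) source := by
  unfold source
  exact iIndepFun_infinitePi (P := fun p : List Bool × ℕ => mark p.2)
    (X := fun _ x => x) (fun _ => measurable_id)

/-- Indices of coordinates of the root. -/
def rootIdx : Set (List Bool × ℕ) := {p | p.1 = []}

/-- Indices of coordinates below the child `b`. -/
def childIdx (b : Bool) : Set (List Bool × ℕ) := {p | ∃ v, p.1 = v ++ [b]}

lemma comap_le_iSup (S : Set (List Bool × ℕ)) {ι : Type} (φ : ι → List Bool × ℕ)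
    (hφ : ∀ i, φ i ∈ S) :
    MeasurableSpace.comap (fun (ω : Source) (i : ι) => ω (φ i)) inferInstance ≤
      ⨆ p ∈ S, MeasurableSpace.comap (fun ω : Source => ω p) inferInstance := by
  rw [MeasurableSpace.pi, MeasurableSpace.comap_iSup]
  apply iSup_le
  intro i
  rw [MeasurableSpace.comap_comp]
  exact le_iSup₂_of_le (φ i) (hφ i) le_rfl

lemma comap_shift_le (b : Bool) : MeasurableSpace.comap (shift b) inferInstance ≤
      ⨆ p ∈ childIdx b, MeasurableSpace.comap (fun ω : Source => ω p) inferInstance :=
  comap_le_iSup (childIdx b) (fun p : List Bool × ℕ => (p.1 ++ [b], p.2)) (fun p => ⟨p.1, rfl⟩)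

lemma indep_root (k : ℕ) :
    IndepFun (fun ω : Source => ω ([], k)) (fun ω => (shift false ω, shift true ω)) source := by
  have hind := indep_iSup_of_disjoint (S := rootIdx) (T := childIdx false ∪ childIdx true)
    (m := fun p : List Bool × ℕ => MeasurableSpace.comap (fun ω : Source => ω p) inferInstance)
    (μ := source) (fun p => (measurable_pi_apply p).comap_le) indep_coords ?_
  · rw [IndepFun_iff_Indep]
    refine indep_of_indep_of_le_left (indep_of_indep_of_le_right hind ?_) ?_
    · refine (MeasurableSpace.comap_prodMk (shift false) (shift true)).le.trans ?_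
      apply sup_le
      · exact (comap_shift_le false).trans (biSup_mono (fun p hp => Or.inl hp))
      · exact (comap_shift_le true).trans (biSup_mono (fun p hp => Or.inr hp))
    · exact le_iSup₂_of_le (([], k) : List Bool × ℕ) rfl le_rfl
  · rw [Set.disjoint_left]
    intro p hp hp'
    change p.1 = [] at hp
    rcases hp' with ⟨v, hv⟩ | ⟨v, hv⟩ <;> simp [hp] at hv

lemma indep_children : IndepFun (shift false) (shift true) source := by
  have hind := indep_iSup_of_disjoint (S := childIdx false) (T := childIdx true)
    (m := fun p : List Bool × ℕ => MeasurableSpace.comap (fun ω : Source => ω p) inferInstance)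
    (μ := source) (fun p => (measurable_pi_apply p).comap_le) indep_coords ?_
  · rw [IndepFun_iff_Indep]
    exact indep_of_indep_of_le_left
      (indep_of_indep_of_le_right hind (comap_shift_le true)) (comap_shift_le false)
  · rw [Set.disjoint_left]
    rintro p ⟨v, hv⟩ ⟨v', hv'⟩
    rw [hv] at hv'
    have := congrArg List.getLast? hv'
    simp at this

lemma map_shift (b : Bool) : source.map (shift b) = source := by
  unfold source shift
  exact Measure.map_infinitePi_infinitePi_of_inj (P := fun p : List Bool × ℕ => mark p.2)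
    (f := fun p : List Bool × ℕ => (p.1 ++ [b], p.2)) (by
      rintro ⟨v, k⟩ ⟨v', k'⟩ hvk
      simp only [Prod.mk.injEq, List.append_cancel_right_eq] at hvk
      exact Prod.ext hvk.1 hvk.2)

lemma map_root (k : ℕ) : source.map (fun ω => ω ([], k)) = mark k := by
  unfold source
  exact Measure.infinitePi_map_eval (fun p : List Bool × ℕ => mark p.2) ([], k)

/-- The root coordinate and the two shifted sources are independent, with the right laws. -/
lemma map_triple (k : ℕ) :
    source.map (fun ω => (ω ([], k), (shift false ω, shift true ω))) =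
      (mark k).prod (source.prod source) := by
  rw [(indep_root k).map_prod_eq_prod_map_map (measurable_pi_apply _).aemeasurable
    (by fun_prop), map_root,
    indep_children.map_prod_eq_prod_map_map (by fun_prop) (by fun_prop), map_shift, map_shift]

/-! ### The distribution function of the height -/

/-- The distribution function of `D*_n`. -/
def F (n : ℕ) (t : ℝ) : ℝ := source.real {ω | Dstar n ω ≤ t}

lemma measurableSet_Dstar_le (n : ℕ) (t : ℝ) : MeasurableSet {ω | Dstar n ω ≤ t} :=
  measurable_Dstar n measurableSet_Iic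

lemma F_nonneg (n : ℕ) (t : ℝ) : 0 ≤ F n t := measureReal_nonneg

lemma F_le_one (n : ℕ) (t : ℝ) : F n t ≤ 1 := measureReal_le_one

lemma F_mono (n : ℕ) : Monotone (F n) := by
  intro s t hst
  refine measureReal_mono ?_ (measure_ne_top _ _)
  intro ω hω
  exact le_trans hω hst

lemma F_zero_one {n : ℕ} (hn : n ≤ 1) (t : ℝ) : F n t = if 0 ≤ t then 1 else 0 := by
  have h1 : ∀ ω, Dstar n ω = 0 := by
    intro ω
    interval_cases n
    · exact Dstar_zero ω
    · exact Dstar_one ω
  unfold F
  simp only [h1]
  split_ifs with ht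
  · simp [ht]
  · simp [ht]

/-- One step of the recursion, in terms of the laws. -/
lemma F_step (k : ℕ) (t : ℝ) :
    F (k + 2) t = ∫ x, ∑ i ∈ Finset.Icc 1 (k + 1),
      q (k + 2) i * (F i (t - x) * F (k + 2 - i) (t - x)) ∂(expMeasure (h (k + 1))) := by
  have hFm : ∀ i, Measurable (fun x => F i (t - x)) := fun i =>
    (F_mono i).measurable.comp (measurable_const.sub measurable_id)
  have hmeas : Measurable (fun x => ∑ i ∈ Finset.Icc 1 (k + 1),
      q (k + 2) i * (F i (t - x) * F (k + 2 - i) (t - x))) := by
    apply Finset.measurable_sum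
    intro i _
    exact ((hFm i).mul (hFm (k + 2 - i))).const_mul _
  have hnn : ∀ x, 0 ≤ ∑ i ∈ Finset.Icc 1 (k + 1),
      q (k + 2) i * (F i (t - x) * F (k + 2 - i) (t - x)) := by
    intro x
    apply Finset.sum_nonneg
    intro i hi
    exact mul_nonneg (q_nonneg (m := k + 2) (by simpa using hi))
      (mul_nonneg (F_nonneg _ _) (F_nonneg _ _))
  rw [integral_eq_lintegral_of_nonneg_ae (Eventually.of_forall hnn) hmeas.aestronglyMeasurable]
  unfold F
  rw [measureReal_def]
  congr 1
  set A : Set ((ℝ × ℕ) × (Source × Source)) := {z | (∑ i ∈ Finset.Icc 1 (k + 1),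
    if z.1.2 = i then z.1.1 + max (Dstar i z.2.1) (Dstar (k + 2 - i) z.2.2) else 0) ≤ t} with hAdef
  have hA : MeasurableSet A := by
    refine measurableSet_le ?_ measurable_const
    apply Finset.measurable_sum
    intro i _
    apply Measurable.ite
    · have : Measurable (fun z : (ℝ × ℕ) × (Source × Source) => z.1.2) := by fun_prop
      exact this (measurableSet_singleton i)
    · fun_prop
    · exact measurable_const
  have htr : Measurable (fun ω : Source => (ω ([], k), (shift false ω, shift true ω))) :=
    (measurable_pi_apply _).prodMk (by fun_prop)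
  have h1 : source {ω | Dstar (k + 2) ω ≤ t} =
      (source.map (fun ω => (ω ([], k), (shift false ω, shift true ω)))) A := by
    rw [Measure.map_apply htr hA]
    congr 1
    ext ω
    change Dstar (k + 2) ω ≤ t ↔ (∑ i ∈ Finset.Icc 1 (k + 1), if (ω ([], k)).2 = i then
      (ω ([], k)).1 + max (Dstar i (shift false ω)) (Dstar (k + 2 - i) (shift true ω)) else 0) ≤ t
    rw [Dstar_step']
  rw [h1, map_triple, Measure.prod_apply hA]
  unfold mark
  rw [lintegral_prod _ (measurable_measure_prodMk_left hA).aemeasurable]
  apply lintegral_congr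
  intro x
  have h2 : splitLaw (k + 2) = ∑ i ∈ Finset.Icc 1 (k + 1),
    ENNReal.ofReal (q (k + 2) i) • Measure.dirac i := rfl
  rw [h2, lintegral_finsetSum_measure, ENNReal.ofReal_sum_of_nonneg]
  · apply Finset.sum_congr rfl
    intro i hi
    rw [lintegral_smul_measure, lintegral_dirac, smul_eq_mul,
      ENNReal.ofReal_mul (q_nonneg (m := k + 2) (by simpa using hi)),
      ENNReal.ofReal_mul measureReal_nonneg]
    congr 1
    have h3 : Prod.mk (x, i) ⁻¹' A =
        {ω | Dstar i ω ≤ t - x} ×ˢ {ω | Dstar (k + 2 - i) ω ≤ t - x} := by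
      ext ⟨ω₀, ω₁⟩
      change (∑ i' ∈ Finset.Icc 1 (k + 1), if i = i' then
        x + max (Dstar i' ω₀) (Dstar (k + 2 - i') ω₁) else 0) ≤ t ↔
        (Dstar i ω₀ ≤ t - x ∧ Dstar (k + 2 - i) ω₁ ≤ t - x)
      rw [Finset.sum_ite_eq, if_pos hi, ← max_le_iff]
      constructor <;> intro h <;> linarith
    rw [h3, Measure.prod_prod, ofReal_measureReal (measure_ne_top _ _),
      ofReal_measureReal (measure_ne_top _ _)]
  · intro i hi
    exact mul_nonneg (q_nonneg (m := k + 2) (by simpa using hi))
      (mul_nonneg measureReal_nonneg measureReal_nonneg)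

/-- Integration against the exponential law. -/
lemma integral_exp {r : ℝ} (hr : 0 < r) (f : ℝ → ℝ) :
    ∫ x, f x ∂(expMeasure r) = ∫ x, (if 0 ≤ x then r * Real.exp (-(r * x)) else 0) * f x := by
  unfold expMeasure gammaMeasure
  rw [integral_withDensity_eq_integral_toReal_smul]
  · apply integral_congr_ae
    refine Eventually.of_forall (fun x => ?_)
    have : gammaPDF 1 r x = exponentialPDF r x := rfl
    simp only [this, exponentialPDF_eq, smul_eq_mul]
    congr 1
    apply ENNReal.toReal_ofReal
    split_ifs
    · positivity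
    · exact le_rfl
  · exact (measurable_gammaPDFReal 1 r).ennreal_ofReal
  · refine Eventually.of_forall (fun x => ?_)
    unfold gammaPDF
    exact ENNReal.ofReal_lt_top

lemma F_neg : ∀ n : ℕ, ∀ t : ℝ, t < 0 → F n t = 0 := by
  intro n
  induction n using Nat.strong_induction_on with
  | _ n ih =>
    intro t ht
    match n with
    | 0 => rw [F_zero_one (by omega), if_neg (by linarith)]
    | 1 => rw [F_zero_one (by omega), if_neg (by linarith)]
    | k + 2 =>
      rw [F_step, integral_exp (h_pos (by omega))]
      have : ∀ x : ℝ, (if 0 ≤ x then h (k + 1) * Real.exp (-(h (k + 1) * x)) else 0) *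
          ∑ i ∈ Finset.Icc 1 (k + 1), q (k + 2) i * (F i (t - x) * F (k + 2 - i) (t - x)) = 0 := by
        intro x
        split_ifs with hx
        · rw [Finset.sum_eq_zero, mul_zero]
          intro i hi
          simp only [Finset.mem_Icc] at hi
          rw [ih i (by omega) (t - x) (by linarith)]
          ring
        · rw [zero_mul]
      simp only [this, integral_zero]

lemma F_eq {n : ℕ} (hn : 2 ≤ n) {t : ℝ} (ht : 0 ≤ t) :
    F n t = ∫ s in (0:ℝ)..t,
      Real.exp (-(Helper48.CTCS.lam n * s)) * Helper48.CTCS.Phi F n (t - s) := by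
  obtain ⟨k, rfl⟩ : ∃ k, n = k + 2 := ⟨n - 2, by omega⟩
  rw [F_step, integral_exp (h_pos (by omega)), intervalIntegral.integral_of_le ht,
    ← integral_Icc_eq_integral_Ioc, ← integral_indicator measurableSet_Icc]
  apply integral_congr_ae
  refine Eventually.of_forall (fun x => ?_)
  have hlam : Helper48.CTCS.lam (k + 2) = h (k + 1) := rfl
  have hPhi : ∀ s, Helper48.CTCS.Phi F (k + 2) s = h (k + 1) * ∑ i ∈ Finset.Icc 1 (k + 1),
      q (k + 2) i * (F i s * F (k + 2 - i) s) := by
    intro s
    have := sum_h_mul_q (k + 2) (fun i j => F i s * F j s) (fun i j => mul_comm _ _)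
    unfold Helper48.CTCS.Phi
    rw [← this, Finset.mul_sum]
    apply Finset.sum_congr rfl
    intro i _
    have e : k + 2 - 1 = k + 1 := rfl
    rw [e]
    ring
  by_cases hx0 : 0 ≤ x
  · by_cases hxt : x ≤ t
    · rw [Set.indicator_of_mem (show x ∈ Set.Icc 0 t from ⟨hx0, hxt⟩)]
      simp only [if_pos hx0, hlam, hPhi]
      ring
    · rw [Set.indicator_of_notMem (fun h => hxt h.2)]
      simp only
      rw [Finset.sum_eq_zero, mul_zero]
      intro i hi
      push Not at hxt
      rw [F_neg i (t - x) (by linarith)]
      ring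
  · rw [Set.indicator_of_notMem (fun h => hx0 h.1)]
    simp only [if_neg hx0, zero_mul]

lemma F_sys : Helper48.CTCS.Sys F where
  nonneg := F_nonneg
  le_one := F_le_one
  mono := F_mono
  one := by
    intro t ht
    rw [F_zero_one (by omega), if_pos ht]
  eq := fun _ hn _ ht => F_eq hn ht

/-! ### The main theorem -/

lemma tendsto_lower {ε : ℝ} (hε : 0 < ε) (hε1 : ε ≤ 1) :
    Tendsto (fun n : ℕ => F n ((2 - ε) * Real.log n)) atTop (𝓝 0) := by
  have hlog : Tendsto (fun n : ℕ => Real.log (n : ℝ)) atTop atTop :=
    Real.tendsto_log_atTop.comp tendsto_natCast_atTop_atTop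
  have h1 : Tendsto (fun n : ℕ => Real.exp (Helper48.CTCS.eta *
      (Real.log 100 - ε / 2 * Real.log n))) atTop (𝓝 0) := by
    apply Real.tendsto_exp_atBot.comp
    apply Tendsto.const_mul_atBot Helper48.CTCS.eta_pos
    have h2 : Tendsto (fun n : ℕ => ε / 2 * Real.log (n : ℝ)) atTop atTop :=
      hlog.const_mul_atTop (by positivity)
    have h3 := tendsto_neg_atTop_atBot.comp h2
    have h4 := tendsto_atBot_add_const_left _ (Real.log 100) h3
    refine h4.congr (fun n => ?_)
    simp only [Function.comp]
    ring
  refine tendsto_of_tendsto_of_tendsto_of_le_of_le' tendsto_const_nhds h1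
    (Eventually.of_forall (fun n => F_nonneg _ _)) ?_
  filter_upwards [eventually_ge_atTop 1] with n hn
  have hlog0 : 0 ≤ Real.log (n : ℝ) := Real.log_nonneg (by exact_mod_cast hn)
  refine (F_sys.le_Up n hn _ (mul_nonneg (by linarith) hlog0)).trans (le_of_eq ?_)
  unfold Helper48.CTCS.Up
  congr 1
  ring

lemma tendsto_upper {ε : ℝ} (hε : 0 < ε) :
    Tendsto (fun n : ℕ => 1 - F n ((2 + ε) * Real.log n)) atTop (𝓝 0) := by
  have hlog : Tendsto (fun n : ℕ => Real.log (n : ℝ)) atTop atTop :=
    Real.tendsto_log_atTop.comp tendsto_natCast_atTop_atTop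
  have h1 : Tendsto (fun n : ℕ => Real.exp (-(ε * Real.log n))) atTop (𝓝 0) := by
    apply Real.tendsto_exp_atBot.comp
    exact tendsto_neg_atTop_atBot.comp (hlog.const_mul_atTop hε)
  refine tendsto_of_tendsto_of_tendsto_of_le_of_le' tendsto_const_nhds h1
    (Eventually.of_forall (fun n => by
      have := F_le_one n ((2 + ε) * Real.log n)
      linarith)) ?_
  filter_upwards [eventually_ge_atTop 1] with n hn
  have hn1 : (1 : ℝ) ≤ n := by exact_mod_cast hn
  have hlog0 : 0 ≤ Real.log (n : ℝ) := Real.log_nonneg hn1
  have h2 := F_sys.tail_upper n hn ((2 + ε) * Real.log n) (mul_nonneg (by linarith) hlog0)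
  have h3 : Real.exp (-((2 + ε) * Real.log n)) = Real.exp (-(ε * Real.log n)) / (n : ℝ) ^ 2 := by
    rw [show -((2 + ε) * Real.log (n : ℝ)) = -(ε * Real.log n) - 2 * Real.log n by ring,
      Real.exp_sub, two_mul, Real.exp_add, Real.exp_log (by linarith)]
    ring
  have h4 : (n : ℝ) * (n - 1) * Real.exp (-((2 + ε) * Real.log n)) ≤
      Real.exp (-(ε * Real.log n)) := by
    rw [h3, ← mul_div_assoc, div_le_iff₀ (by positivity)]
    have : 0 < Real.exp (-(ε * Real.log n)) := Real.exp_pos _
    nlinarith
  linarith

lemma tendsto_two :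
    TendstoInMeasure source (fun (n : ℕ) (ω : Source) => Dstar n ω / Real.log n) atTop
      (fun _ => (2 : ℝ)) := by
  rw [tendstoInMeasure_iff_measureReal_dist]
  intro ε hε
  set δ := min ε 1 with hδ
  have hδ0 : 0 < δ := lt_min hε one_pos
  have hδ1 : δ ≤ 1 := min_le_right _ _
  have hδε : δ ≤ ε := min_le_left _ _
  have h1 := (tendsto_lower hδ0 hδ1).add (tendsto_upper (ε := δ / 2) (by positivity))
  rw [add_zero] at h1
  refine tendsto_of_tendsto_of_tendsto_of_le_of_le' tendsto_const_nhds h1
    (Eventually.of_forall (fun n => measureReal_nonneg)) ?_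
  filter_upwards [eventually_ge_atTop 2] with n hn
  have hlog0 : 0 < Real.log (n : ℝ) := Real.log_pos (by exact_mod_cast (by omega : 1 < n))
  have hsub : {ω | ε ≤ dist (Dstar n ω / Real.log n) 2} ⊆
      {ω | Dstar n ω ≤ (2 - δ) * Real.log n} ∪
        {ω | Dstar n ω ≤ (2 + δ / 2) * Real.log n}ᶜ := by
    intro ω hω
    change ε ≤ dist (Dstar n ω / Real.log n) 2 at hω
    rw [Real.dist_eq] at hω
    by_contra hcon
    simp only [Set.mem_union, Set.mem_compl_iff, not_or, not_not] at hcon
    obtain ⟨h2, h3⟩ := hcon
    change ¬ (Dstar n ω ≤ (2 - δ) * Real.log n) at h2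
    change Dstar n ω ≤ (2 + δ / 2) * Real.log n at h3
    push Not at h2
    have h4 : 2 - δ < Dstar n ω / Real.log n := by rwa [lt_div_iff₀ hlog0]
    have h5 : Dstar n ω / Real.log n ≤ 2 + δ / 2 := by rwa [div_le_iff₀ hlog0]
    have h6 : |Dstar n ω / Real.log n - 2| < δ := by
      rw [abs_lt]
      constructor <;> linarith
    linarith
  calc source.real {ω | ε ≤ dist (Dstar n ω / Real.log n) 2}
      ≤ source.real ({ω | Dstar n ω ≤ (2 - δ) * Real.log n} ∪
        {ω | Dstar n ω ≤ (2 + δ / 2) * Real.log n}ᶜ) :=
        measureReal_mono hsub (measure_ne_top _ _)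
    _ ≤ source.real {ω | Dstar n ω ≤ (2 - δ) * Real.log n} +
        source.real {ω | Dstar n ω ≤ (2 + δ / 2) * Real.log n}ᶜ := measureReal_union_le _ _
    _ = F n ((2 - δ) * Real.log n) + (1 - F n ((2 + δ / 2) * Real.log n)) := by
        rw [probReal_compl_eq_one_sub (measurableSet_Dstar_le n _)]
        rfl

/-- The height `D*_n` of the critical beta-splitting tree `CTCS(n)` satisfies
`D*_n / log n → c` in probability if and only if `c = 2`. -/
theorem result : ∀ c : ℝ,
    TendstoInMeasure source (fun (n : ℕ) (ω : Source) => Dstar n ω / Real.log n) atTop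
      (fun _ => c) ↔ c = 2 := by
  intro c
  constructor
  · intro hc
    have h := tendstoInMeasure_ae_unique hc tendsto_two
    obtain ⟨ω, hω⟩ := h.exists
    exact hω
  · rintro rfl
    exact tendsto_two

end

end Pool.Agent.Results.MP_87a2dc_pr.HeightTwoLog
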